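import Pool.Agent.H73.Blk.Walk

/-!
# Existence of expanding block systems with flexible gadgets
-/

open Finset Pool.Agent.H73.Xor

namespace Pool.Agent.H73.Blk

/-! ### gadgets -/

/-- a function onto on every subcube with `d` free variables -/
def Onto {m c : ℕ} (d : ℕ) (φ : (Fin m → Bool) → (Fin c → ZMod 2)) : Prop :=
  ∀ (S : Finset (Fin m)), d ≤ S.card → ∀ (x : Fin m → Bool) (z : Fin c → ZMod 2),
    ∃ x' : Fin m → Bool, (∀ t, t ∉ S → x' t = x t) ∧ φ x' = z

lemma card_subcube {m : ℕ} (S : Finset (Fin m)) (x : Fin m → Bool) :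
    (univ.filter fun x' : Fin m → Bool => ∀ t, t ∉ S → x' t = x t).card = 2 ^ S.card := by
  have : (univ.filter fun x' : Fin m → Bool => ∀ t, t ∉ S → x' t = x t) =
      Fintype.piFinset fun i => if i ∈ S then univ else {x i} := by
    ext x'
    simp only [mem_filter, mem_univ, true_and, Fintype.mem_piFinset]
    refine forall_congr' fun i => ?_
    by_cases h : i ∈ S <;> simp [h]
  rw [this, Fintype.card_piFinset]
  have h2 : ∀ i : Fin m, (if i ∈ S then univ else ({x i} : Finset Bool)).card =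
      if i ∈ S then 2 else 1 := by
    intro i; split_ifs <;> simp
  rw [Finset.prod_congr rfl (fun i _ => h2 i), Finset.prod_ite, Finset.prod_const_one, mul_one,
    Finset.prod_const]
  congr 2
  ext i; simp

/-- functions missing a value on a set of points -/
lemma card_missing {A C : Type*} [Fintype A] [DecidableEq A] [Fintype C] [DecidableEq C]
    (W : Finset A) (z : C) :
    (univ.filter fun φ : A → C => ∀ a ∈ W, φ a ≠ z).card =
      (Fintype.card C - 1) ^ W.card * (Fintype.card C) ^ (Fintype.card A - W.card) := by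
  have : (univ.filter fun φ : A → C => ∀ a ∈ W, φ a ≠ z) =
      Fintype.piFinset fun a => if a ∈ W then {z}ᶜ else univ := by
    ext φ
    simp only [mem_filter, mem_univ, true_and, Fintype.mem_piFinset]
    refine forall_congr' fun a => ?_
    by_cases h : a ∈ W <;> simp [h]
  rw [this, Fintype.card_piFinset]
  have h2 : ∀ a : A, (if a ∈ W then ({z}ᶜ : Finset C) else univ).card =
      if a ∈ W then Fintype.card C - 1 else Fintype.card C := by
    intro a; split_ifs
    · rw [card_compl, card_singleton]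
    · rfl
  rw [Finset.prod_congr rfl (fun a _ => h2 a), Finset.prod_ite, Finset.prod_const,
    Finset.prod_const]
  congr 2
  · congr 1
    ext a; simp
  · have : (univ.filter fun a => a ∉ W) = Wᶜ := by ext a; simp
    rw [this, card_compl]

lemma one_sub_pow_le (c t : ℕ) : 2 ^ t * (2 ^ c - 1) ^ (2 ^ c * t) ≤ (2 ^ c) ^ (2 ^ c * t) := by
  have h := two_mul_pow_le (m := 2 ^ c) (by positivity)
  calc 2 ^ t * (2 ^ c - 1) ^ (2 ^ c * t) = (2 * (2 ^ c - 1) ^ 2 ^ c) ^ t := by
        rw [mul_pow, ← pow_mul]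
    _ ≤ ((2 ^ c) ^ 2 ^ c) ^ t := Nat.pow_le_pow_left h t
    _ = _ := by rw [← pow_mul]

theorem exists_onto (m c g : ℕ) (hg : 2 * m + c + 1 ≤ 2 ^ g) (hcg : c + g ≤ m) :
    ∃ φ : (Fin m → Bool) → (Fin c → ZMod 2), Onto (c + g) φ := by
  classical
  set d := c + g with hd
  set Q := 2 ^ c with hQ
  have hcardC : Fintype.card (Fin c → ZMod 2) = Q := by
    rw [Fintype.card_fun, ZMod.card, Fintype.card_fin]
  have hcardA : Fintype.card (Fin m → Bool) = 2 ^ m := by
    rw [Fintype.card_fun, Fintype.card_bool, Fintype.card_fin]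
  set tot := Q ^ 2 ^ m with htot
  set bad : Finset (Fin m) → (Fin m → Bool) → (Fin c → ZMod 2) →
      Finset ((Fin m → Bool) → (Fin c → ZMod 2)) := fun S x z =>
    univ.filter fun φ => ∀ a ∈ (univ.filter fun x' : Fin m → Bool => ∀ t, t ∉ S → x' t = x t),
      φ a ≠ z with hbad
  have hbadcard : ∀ S x z, S.card = d → 2 ^ (2 ^ g) * (bad S x z).card ≤ tot := by
    intro S x z hS
    rw [hbad]
    simp only
    rw [card_missing, hcardC, card_subcube, hS, hcardA]
    have h1 : 2 ^ d = 2 ^ c * 2 ^ g := by rw [hd, pow_add]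
    have h2 := one_sub_pow_le c (2 ^ g)
    rw [← h1, ← hQ] at h2
    have h3 : 2 ^ d ≤ 2 ^ m := Nat.pow_le_pow_right (by norm_num) hcg
    calc 2 ^ 2 ^ g * ((Q - 1) ^ 2 ^ d * Q ^ (2 ^ m - 2 ^ d))
        = (2 ^ 2 ^ g * (Q - 1) ^ 2 ^ d) * Q ^ (2 ^ m - 2 ^ d) := by ring
      _ ≤ Q ^ 2 ^ d * Q ^ (2 ^ m - 2 ^ d) := Nat.mul_le_mul_right _ h2
      _ = tot := by rw [← pow_add, htot]; congr 1; omega
  by_contra hcon
  push Not at hcon
  have hcover : (univ : Finset ((Fin m → Bool) → (Fin c → ZMod 2))) ⊆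
      ((univ : Finset (Fin m)).powersetCard d).biUnion fun S =>
        (univ : Finset (Fin m → Bool)).biUnion fun x =>
          (univ : Finset (Fin c → ZMod 2)).biUnion fun z => bad S x z := by
    intro φ _
    have h1 := hcon φ
    unfold Onto at h1
    push Not at h1
    obtain ⟨S', hS', x, z, hmiss⟩ := h1
    obtain ⟨S, hSS', hSc⟩ := Finset.exists_subset_card_eq hS'
    rw [mem_biUnion]
    refine ⟨S, mem_powersetCard.2 ⟨subset_univ _, hSc⟩, ?_⟩
    rw [mem_biUnion]
    refine ⟨x, mem_univ _, ?_⟩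
    rw [mem_biUnion]
    refine ⟨z, mem_univ _, ?_⟩
    simp only [hbad, mem_filter, mem_univ, true_and]
    intro a ha
    exact hmiss a fun t ht => ha t fun hc => ht (hSS' hc)
  have hcount := (card_le_card hcover).trans card_biUnion_le
  have h4 : ∑ S ∈ (univ : Finset (Fin m)).powersetCard d,
      ((univ : Finset (Fin m → Bool)).biUnion fun x =>
        (univ : Finset (Fin c → ZMod 2)).biUnion fun z => bad S x z).card * 2 ^ 2 ^ g ≤
      2 ^ m * (2 ^ m * (Q * tot)) := by
    calc _ ≤ ∑ S ∈ (univ : Finset (Fin m)).powersetCard d, 2 ^ m * (Q * tot) := by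
          refine Finset.sum_le_sum fun S hS => ?_
          rw [mem_powersetCard] at hS
          calc _ ≤ (∑ x : Fin m → Bool, ∑ z : Fin c → ZMod 2, (bad S x z).card) * 2 ^ 2 ^ g := by
                refine Nat.mul_le_mul_right _ (card_biUnion_le.trans ?_)
                exact Finset.sum_le_sum fun x _ => card_biUnion_le
            _ = ∑ x : Fin m → Bool, ∑ z : Fin c → ZMod 2, 2 ^ 2 ^ g * (bad S x z).card := by
                rw [Finset.sum_mul]
                refine Finset.sum_congr rfl fun x _ => ?_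
                rw [Finset.sum_mul]
                exact Finset.sum_congr rfl fun z _ => mul_comm _ _
            _ ≤ ∑ x : Fin m → Bool, ∑ z : Fin c → ZMod 2, tot :=
                Finset.sum_le_sum fun x _ => Finset.sum_le_sum fun z _ => hbadcard S x z hS.2
            _ = 2 ^ m * (Q * tot) := by
                simp only [Finset.sum_const, smul_eq_mul, card_univ, hcardC, hcardA]
      _ ≤ 2 ^ m * (2 ^ m * (Q * tot)) := by
          rw [Finset.sum_const, smul_eq_mul, card_powersetCard, card_univ, Fintype.card_fin]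
          refine Nat.mul_le_mul_right _ ?_
          exact Nat.choose_le_two_pow m d
  rw [card_univ, Fintype.card_fun, hcardC, hcardA, ← htot] at hcount
  have h5 : tot * 2 ^ 2 ^ g ≤ 2 ^ m * (2 ^ m * (Q * tot)) := by
    refine (Nat.mul_le_mul_right _ hcount).trans ?_
    rw [Finset.sum_mul]
    exact h4
  have htotpos : 0 < tot := by positivity
  have h6 : 2 ^ (2 * m + c + 1) ≤ 2 ^ 2 ^ g := Nat.pow_le_pow_right (by norm_num) hg
  have h7 : 2 ^ m * (2 ^ m * (Q * tot)) < tot * 2 ^ (2 * m + c + 1) := by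
    have : 2 ^ (2 * m + c + 1) = 2 * (2 ^ m * 2 ^ m * 2 ^ c) := by
      rw [pow_succ, pow_add, two_mul, pow_add]; ring
    rw [this, ← hQ]
    have h8 : 0 < 2 ^ m * 2 ^ m * Q * tot := by positivity
    calc 2 ^ m * (2 ^ m * (Q * tot)) = 2 ^ m * 2 ^ m * Q * tot := by ring
      _ < 2 * (2 ^ m * 2 ^ m * Q * tot) := by omega
      _ = _ := by ring
  have h9 : tot * 2 ^ (2 * m + c + 1) ≤ tot * 2 ^ 2 ^ g := Nat.mul_le_mul_left _ h6
  omega

/-! ### hypergraphs -/

/-- tuples on which a functional is constant -/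
def mono {M : ℕ} (c : ℕ) (χ : Fin M → ZMod 2) : Finset (Fin (c + 1) → Fin M) :=
  univ.filter fun h => ∀ l, χ (h l) = χ (h 0)

lemma card_mono_le {M c K : ℕ} (hK : 2 * K * 2 ^ (c + 1) ≤ 3 ^ (c + 1)) (χ : Fin M → ZMod 2)
    (h1 : M ≤ 3 * wt χ) (h2 : 3 * wt χ ≤ 2 * M) : K * (mono c χ).card ≤ M ^ (c + 1) := by
  classical
  set A := univ.filter fun j => χ j ≠ 0 with hA
  have hAc : A.card = wt χ := rfl
  have hsub : mono c χ ⊆ (Fintype.piFinset fun _ : Fin (c + 1) => A) ∪
      (Fintype.piFinset fun _ : Fin (c + 1) => Aᶜ) := by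
    intro h hh
    simp only [mono, mem_filter, mem_univ, true_and] at hh
    rw [mem_union, Fintype.mem_piFinset, Fintype.mem_piFinset]
    by_cases h0 : χ (h 0) = 0
    · right
      intro l
      rw [mem_compl, hA, mem_filter, not_and, not_not]
      intro _
      rw [hh l, h0]
    · left
      intro l
      rw [hA, mem_filter]
      exact ⟨mem_univ _, by rw [hh l]; exact h0⟩
  have hle := (card_le_card hsub).trans (card_union_le _ _)
  rw [Fintype.card_piFinset, Fintype.card_piFinset] at hle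
  simp only [Finset.prod_const, card_univ, Fintype.card_fin, card_compl, hAc] at hle
  have h3 : 3 ^ (c + 1) * (wt χ) ^ (c + 1) ≤ 2 ^ (c + 1) * M ^ (c + 1) := by
    rw [← mul_pow, ← mul_pow]
    exact Nat.pow_le_pow_left h2 _
  have h4 : 3 ^ (c + 1) * (M - wt χ) ^ (c + 1) ≤ 2 ^ (c + 1) * M ^ (c + 1) := by
    rw [← mul_pow, ← mul_pow]
    exact Nat.pow_le_pow_left (by omega) _
  have h5 : 3 ^ (c + 1) * (mono c χ).card ≤ 2 * (2 ^ (c + 1) * M ^ (c + 1)) := by
    calc 3 ^ (c + 1) * (mono c χ).card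
        ≤ 3 ^ (c + 1) * ((wt χ) ^ (c + 1) + (M - wt χ) ^ (c + 1)) := Nat.mul_le_mul_left _ hle
      _ = 3 ^ (c + 1) * (wt χ) ^ (c + 1) + 3 ^ (c + 1) * (M - wt χ) ^ (c + 1) := by ring
      _ ≤ _ := by omega
  have hpos : 0 < 2 * 2 ^ (c + 1) := by positivity
  refine Nat.le_of_mul_le_mul_left ?_ hpos
  calc 2 * 2 ^ (c + 1) * (K * (mono c χ).card) = (2 * K * 2 ^ (c + 1)) * (mono c χ).card := by ring
    _ ≤ 3 ^ (c + 1) * (mono c χ).card := Nat.mul_le_mul_right _ hK
    _ ≤ 2 * (2 ^ (c + 1) * M ^ (c + 1)) := h5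
    _ = _ := by ring

/-- families with a balanced cut crossed by few edges -/
def badE (N M c r : ℕ) : Finset (Fin N → Fin (c + 1) → Fin M) :=
  univ.filter fun f => ∃ R : Finset (Fin N), r ≤ R.card ∧ ∃ χ : Fin M → ZMod 2,
    (M ≤ 3 * wt χ ∧ 3 * wt χ ≤ 2 * M) ∧ ∀ i ∈ R, f i ∈ mono c χ

lemma card_badE {N M c K r : ℕ} (hM : 0 < M) (hK : 2 * K * 2 ^ (c + 1) ≤ 3 ^ (c + 1)) :
    K ^ r * (badE N M c r).card ≤ N.choose r * 2 ^ M * (M ^ (c + 1)) ^ N := by
  classical
  have : Nonempty (Fin M) := ⟨⟨0, hM⟩⟩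
  set E : Finset (Fin N) → (Fin M → ZMod 2) → Finset (Fin N → Fin (c + 1) → Fin M) := fun R χ =>
    if M ≤ 3 * wt χ ∧ 3 * wt χ ≤ 2 * M then
      univ.filter fun f => True ∧ ∀ i ∈ R, f i ∈ mono c χ else ∅ with hE
  have hsub : badE N M c r ⊆ (univ.powersetCard r).biUnion fun R =>
      (univ : Finset (Fin M → ZMod 2)).biUnion fun χ => E R χ := by
    intro f hf
    simp only [badE, mem_filter, mem_univ, true_and] at hf
    obtain ⟨R', hR', χ, hχ, hRχ⟩ := hf
    obtain ⟨R, hRR', hRc⟩ := Finset.exists_subset_card_eq hR'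
    rw [mem_biUnion]
    refine ⟨R, mem_powersetCard.2 ⟨subset_univ _, hRc⟩, ?_⟩
    rw [mem_biUnion]
    refine ⟨χ, mem_univ _, ?_⟩
    simp only [hE]
    rw [if_pos hχ, mem_filter]
    exact ⟨mem_univ _, trivial, fun i hi => hRχ i (hRR' hi)⟩
  have hEcard : ∀ (R : Finset (Fin N)) (χ : Fin M → ZMod 2), R.card = r →
      K ^ r * (E R χ).card ≤ (M ^ (c + 1)) ^ N := by
    intro R χ hR
    simp only [hE]
    split_ifs with hχ
    · have hres := resample (ι := Fin N) (Q := Fin (c + 1) → Fin M) K (fun _ => True)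
        (fun _ => mono c χ) R (fun _ _ _ _ => Iff.rfl) (fun _ _ _ _ => rfl) ?_
      · rw [hR] at hres
        have hfin : (univ.filter fun _ : (Fin N → Fin (c + 1) → Fin M) => True).card ≤
            (M ^ (c + 1)) ^ N := by
          refine (card_le_univ _).trans (le_of_eq ?_)
          rw [Fintype.card_fun, Fintype.card_fun, Fintype.card_fin, Fintype.card_fin,
            Fintype.card_fin]
        refine le_trans (le_of_eq ?_) (hres.trans hfin)
        congr!
      · intro f _
        rw [Fintype.card_fun, Fintype.card_fin, Fintype.card_fin]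
        exact card_mono_le hK χ hχ.1 hχ.2
    · simp
  calc K ^ r * (badE N M c r).card
      ≤ K ^ r * ∑ R ∈ univ.powersetCard r, ∑ χ : Fin M → ZMod 2, (E R χ).card := by
        refine Nat.mul_le_mul_left _ ((card_le_card hsub).trans (card_biUnion_le.trans ?_))
        exact Finset.sum_le_sum fun F _ => card_biUnion_le
    _ = ∑ R ∈ univ.powersetCard r, ∑ χ : Fin M → ZMod 2, K ^ r * (E R χ).card := by
        rw [Finset.mul_sum]
        exact Finset.sum_congr rfl fun U2 _ => Finset.mul_sum _ _ _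
    _ ≤ ∑ R ∈ (univ : Finset (Fin N)).powersetCard r, ∑ χ : Fin M → ZMod 2,
          (M ^ (c + 1)) ^ N := by
        refine Finset.sum_le_sum fun R hR => Finset.sum_le_sum fun χ _ => ?_
        exact hEcard R χ (mem_powersetCard.1 hR).2
    _ = _ := by
        simp only [Finset.sum_const, card_powersetCard, smul_eq_mul, card_univ, Fintype.card_fin,
          Fintype.card_fun, ZMod.card]
        ring

/-- existence of an expanding hypergraph of bounded degree -/
theorem exists_hyper {B M c K r k' : ℕ} (hM : 0 < M) (hK : 2 * K * 2 ^ (c + 1) ≤ 3 ^ (c + 1))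
    (hKpos : 0 < K)
    (hN2 : 4 * ((2 * B).choose r * 2 ^ M) ≤ K ^ r)
    (hN3 : 4 * (M * (M + 3) ^ (2 * B * (c + 1))) ≤
      2 ^ k' * (B + 1) * (M ^ (c + 1)) ^ (2 * B)) :
    ∃ f : Fin B → Fin (c + 1) → Fin M,
      (∀ (R : Finset (Fin B)), r ≤ R.card → ∀ χ : Fin M → ZMod 2,
        (∀ i ∈ R, ∀ l, χ (f i l) = χ (f i 0)) → 3 * wt χ < M ∨ 2 * M < 3 * wt χ) ∧
      ∀ j, (univ.filter fun i => ∃ l, f i l = j).card ≤ k' := by
  classical
  have : Nonempty (Fin M) := ⟨⟨0, hM⟩⟩
  set N := 2 * B with hN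
  set tot := (M ^ (c + 1)) ^ N with htot
  have htotpos : 0 < tot := pow_pos (pow_pos hM _) _
  have hcardtot : (univ : Finset (Fin N → Fin (c + 1) → Fin M)).card = tot := by
    rw [card_univ, Fintype.card_fun, Fintype.card_fun, Fintype.card_fin, Fintype.card_fin,
      Fintype.card_fin]
  have hbE : 4 * (badE N M c r).card ≤ tot := by
    have h := card_badE (N := N) (r := r) hM hK
    have hKp : 0 < K ^ r := pow_pos hKpos _
    refine Nat.le_of_mul_le_mul_left ?_ hKp
    calc K ^ r * (4 * (badE N M c r).card) = 4 * (K ^ r * (badE N M c r).card) := by ring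
      _ ≤ 4 * (N.choose r * 2 ^ M * tot) := Nat.mul_le_mul_left _ h
      _ = 4 * (N.choose r * 2 ^ M) * tot := by ring
      _ ≤ K ^ r * tot := Nat.mul_le_mul_right _ hN2
  have hb3 : 4 * (bad3 (Fin N) (Fin M) (c + 1) k' B).card ≤ tot := by
    have h := card_bad3 (I := Fin N) (J := Fin M) (c + 1) k' B
    rw [Fintype.card_fin, Fintype.card_fin] at h
    have hKp : 0 < 2 ^ k' * (B + 1) := Nat.mul_pos (Nat.pow_pos (by norm_num)) (by omega)
    refine Nat.le_of_mul_le_mul_left ?_ hKp
    calc 2 ^ k' * (B + 1) * (4 * (bad3 (Fin N) (Fin M) (c + 1) k' B).card)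
        = 4 * (2 ^ k' * ((B + 1) * (bad3 (Fin N) (Fin M) (c + 1) k' B).card)) := by ring
      _ ≤ 4 * (M * (M + 3) ^ (N * (c + 1))) := Nat.mul_le_mul_left _ h
      _ ≤ _ := hN3
  have hex : ∃ f : Fin N → Fin (c + 1) → Fin M, f ∉ badE N M c r ∧
      f ∉ bad3 (Fin N) (Fin M) (c + 1) k' B := by
    by_contra hcon
    push Not at hcon
    have hsub : (univ : Finset (Fin N → Fin (c + 1) → Fin M)) ⊆
        badE N M c r ∪ bad3 (Fin N) (Fin M) (c + 1) k' B := by
      intro f _
      rw [mem_union]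
      by_cases h1 : f ∈ badE N M c r
      · exact Or.inl h1
      · exact Or.inr (hcon f h1)
    have hc1 := card_le_card hsub
    rw [hcardtot] at hc1
    have hc2 := card_union_le (badE N M c r) (bad3 (Fin N) (Fin M) (c + 1) k' B)
    omega
  obtain ⟨f, hf1, hf3⟩ := hex
  simp only [badE, mem_filter, mem_univ, true_and, not_exists, not_and] at hf1
  simp only [bad3, mem_filter, mem_univ, true_and, not_lt] at hf3
  have hZ : B ≤ (heavy k' f)ᶜ.card := by
    rw [card_compl, Fintype.card_fin]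
    omega
  obtain ⟨I0, hI0, hI0c⟩ := Finset.exists_subset_card_eq hZ
  set φ : Fin B ↪ Fin N := (I0.orderEmbOfFin hI0c).toEmbedding with hφ
  have hφmem : ∀ i, φ i ∉ heavy k' f := by
    intro i
    exact mem_compl.1 (hI0 (I0.orderEmbOfFin_mem hI0c i))
  refine ⟨fun i => f (φ i), ?_, ?_⟩
  · intro R hR χ hχ
    by_contra hcon
    push Not at hcon
    obtain ⟨hc1, hc2⟩ := hcon
    refine hf1 (R.map φ) (by rwa [card_map]) χ ⟨hc1, hc2⟩ ?_
    intro i hi
    rw [mem_map] at hi
    obtain ⟨i', hi', rfl⟩ := hi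
    rw [mono, mem_filter]
    exact ⟨mem_univ _, hχ i' hi'⟩
  · intro j
    by_cases hj : k' < inc f j
    · have : (univ.filter fun i => ∃ l, f (φ i) l = j) = ∅ := by
        rw [Finset.filter_eq_empty_iff]
        rintro i - ⟨l, hl⟩
        apply hφmem i
        rw [heavy, mem_filter]
        exact ⟨mem_univ _, l, by rw [hl]; exact hj⟩
      rw [this]
      simp
    · rw [not_lt] at hj
      refine le_trans ?_ hj
      unfold inc
      have : ((univ.filter fun i => ∃ l, f (φ i) l = j).map φ) ⊆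
          (univ.filter fun p : Fin N × Fin (c + 1) => f p.1 p.2 = j).image Prod.fst := by
        intro i hi
        rw [mem_map] at hi
        obtain ⟨i', hi', rfl⟩ := hi
        rw [mem_filter] at hi'
        obtain ⟨l, hl⟩ := hi'.2
        rw [mem_image]
        exact ⟨(φ i', l), mem_filter.2 ⟨mem_univ _, hl⟩, rfl⟩
      have h2 := card_le_card this
      rw [card_map] at h2
      exact h2.trans card_image_le

end Pool.Agent.H73.Blk
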