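import Pool.Agent.H73.Blk.Exist

/-!
# Assembling block systems and choosing the parameters
-/

open Finset Pool.Agent.H73.Xor

namespace Pool.Agent.H73.Blk

lemma closed_mul {n B M c : ℕ} (P : Sys n B M c) {R : Finset (Fin B)} {χ χ' : Fin M → ZMod 2}
    (h : P.Closed R χ) (h' : P.Closed R χ') : P.Closed R (χ * χ') := by
  intro i hi l
  rw [Pi.mul_apply, Pi.mul_apply, h i hi l, h' i hi l]

/-- a row outside all small closed functionals -/
lemma exists_root_row {n B M c r : ℕ} (P : Sys n B M c) (hE : P.Expanding r) (hr : r ≤ B)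
    (hM : 0 < M) : ∃ j0 : Fin M, ∀ χ, P.Closed univ χ → Small χ → χ j0 = 0 := by
  classical
  by_contra hcon
  push Not at hcon
  have hR : r ≤ (univ : Finset (Fin B)).card := by rwa [card_univ, Fintype.card_fin]
  set L := smallClosed P hE univ hR hM with hL
  have key : ∀ s : Finset (Fin M), ∃ χ ∈ L, ∀ j ∈ s, χ j = 1 := by
    intro s
    induction s using Finset.induction_on with
    | empty => exact ⟨0, L.zero_mem, by simp⟩
    | insert j s hj ih =>
      obtain ⟨χ, hχL, hχ⟩ := ih
      obtain ⟨ψ, hψc, hψs, hψj⟩ := hcon j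
      have hψ1 : ψ j = 1 := z2_ne_zero hψj
      have hψL : ψ ∈ L := ⟨hψc, hψs⟩
      have hmulL : χ * ψ ∈ L := by
        refine ⟨closed_mul P hχL.1 hψc, ?_⟩
        have : wt (χ * ψ) ≤ wt ψ := by
          refine card_le_card fun j' hj' => ?_
          rw [mem_filter] at hj' ⊢
          refine ⟨mem_univ _, fun h0 => hj'.2 ?_⟩
          rw [Pi.mul_apply, h0, mul_zero]
        unfold Small at hψs ⊢
        omega
      refine ⟨χ + ψ + χ * ψ, L.add_mem (L.add_mem hχL hψL) hmulL, ?_⟩
      intro j' hj'
      rw [mem_insert] at hj'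
      simp only [Pi.add_apply, Pi.mul_apply]
      rcases hj' with rfl | hj'
      · rw [hψ1, mul_one]
        have : χ j' + 1 + χ j' = (χ j' + χ j') + 1 := by ring
        rw [this, CharTwo.add_self_eq_zero, zero_add]
      · rw [hχ j' hj', one_mul]
        have : 1 + ψ j' + ψ j' = 1 + (ψ j' + ψ j') := by ring
        rw [this, CharTwo.add_self_eq_zero, add_zero]
  obtain ⟨χ, hχL, hχ⟩ := key univ
  have hwt : wt χ = M := by
    unfold wt
    rw [Finset.filter_true_of_mem, card_univ, Fintype.card_fin]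
    intro j _
    rw [hχ j (mem_univ _)]
    exact one_ne_zero
  have := hχL.2
  unfold Small at this
  omega

/-- the block of a variable -/
noncomputable def blkOf {n B m : ℕ} (emb : Fin B × Fin m → Fin n) (v : Fin n) :
    Option (Fin B) := by
  classical
  exact if h : ∃ p, emb p = v then some h.choose.1 else none

lemma blkOf_iff {n B m : ℕ} {emb : Fin B × Fin m → Fin n} (hemb : Function.Injective emb)
    {v : Fin n} {i : Fin B} : blkOf emb v = some i ↔ ∃ t, emb (i, t) = v := by
  classical
  unfold blkOf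
  constructor
  · intro h
    split_ifs at h with h1
    rw [Option.some.injEq] at h
    refine ⟨h1.choose.2, ?_⟩
    rw [← h]
    exact h1.choose_spec
  · rintro ⟨t, rfl⟩
    have h1 : ∃ p, emb p = emb (i, t) := ⟨_, rfl⟩
    rw [dif_pos h1]
    have := hemb h1.choose_spec
    rw [this]

theorem exists_sys (ℓ m n : ℕ) (hℓ : 2 ≤ ℓ) (hm : 4 * ℓ + 24 ≤ m)
    (hmg : 2 * m + (2 * ℓ + 11) + 1 ≤ 2 ^ (2 * ℓ + 13)) (hn : m * (2 ^ ℓ * 4) ≤ n) :
    ∃ (M : ℕ) (P : Sys n (n / m) M (2 * ℓ + 11)), 3 < M ∧
      P.Expanding (n / m / 2 ^ ℓ) ∧ P.Flexible (4 * ℓ + 24) ∧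
      (∀ j, (P.touch j).card ≤ m * (2 ^ (ℓ + 5) * (ℓ + 6))) ∧
      (∀ i, (univ.filter fun v => P.blk v = some i).card = m) ∧
      (∀ χ, P.Closed univ χ → Small χ → pair χ P.rhs = 0) ∧ ∑ j, P.rhs j ≠ 0 := by
  classical
  set B := n / m with hB
  set r := B / 2 ^ ℓ with hr
  have hmpos : 0 < m := by omega
  have h2l : 0 < 2 ^ ℓ := by positivity
  have hBge : 2 ^ ℓ * 4 ≤ B := by
    rw [hB, Nat.le_div_iff_mul_le hmpos, mul_comm]
    exact hn
  have hr4 : 4 ≤ r := by
    rw [hr, Nat.le_div_iff_mul_le h2l, mul_comm]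
    exact hBge
  have hrB : 2 ^ ℓ * r ≤ B := by rw [hr]; exact Nat.mul_div_le B _
  have hrB2 : B < 2 ^ ℓ * (r + 1) := by rw [hr]; exact Nat.lt_mul_div_succ B h2l
  have h4r : 4 * r ≤ B := by
    refine le_trans (Nat.mul_le_mul_right _ ?_) hrB
    calc 4 = 2 ^ 2 := by norm_num
      _ ≤ 2 ^ ℓ := Nat.pow_le_pow_right (by norm_num) hℓ
  set c := 2 * ℓ + 11 with hc
  have hc1 : c + 1 = 2 * (ℓ + 6) := by omega
  set K := 2 ^ (ℓ + 5) with hK
  -- the hypergraph
  obtain ⟨f, hfE, hfdeg⟩ := exists_hyper (B := B) (M := r) (c := c) (K := K) (r := r)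
    (k' := 2 ^ (ℓ + 5) * (ℓ + 6)) (by omega) (by
      have h1 : 2 * K = 2 ^ (ℓ + 6) := by rw [hK, ← pow_succ']
      rw [h1, hc1, ← pow_add, pow_mul 3]
      have h2 : ℓ + 6 + 2 * (ℓ + 6) = 3 * (ℓ + 6) := by ring
      rw [h2, pow_mul 2]
      exact Nat.pow_le_pow_left (by norm_num) _) (by positivity) (by
      have h1 : (2 * B).choose r ≤ (2 ^ (ℓ + 1)) ^ r * 4 ^ (r + 1) := by
        refine choose_bound _ (by positivity) ?_
        calc 2 * B ≤ 2 * (2 ^ ℓ * (r + 1)) := by omega
          _ = 2 ^ (ℓ + 1) * (r + 1) := by rw [pow_succ]; ring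
      have h4 : ∀ x : ℕ, 4 ^ x = 2 ^ (2 * x) := by
        intro x
        rw [pow_mul]
        norm_num
      calc 4 * ((2 * B).choose r * 2 ^ r)
          ≤ 4 * (((2 ^ (ℓ + 1)) ^ r * 4 ^ (r + 1)) * 2 ^ r) := by gcongr
        _ = 2 ^ (2 + (ℓ + 1) * r + 2 * (r + 1) + r) := by
            rw [h4, ← pow_mul, pow_add, pow_add, pow_add]
            ring
        _ ≤ 2 ^ ((ℓ + 5) * r) := by
            refine Nat.pow_le_pow_right (by norm_num) ?_
            have h5 : (ℓ + 5) * r = (ℓ + 1) * r + 4 * r := by ring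
            rw [h5]
            generalize (ℓ + 1) * r = z
            omega
        _ = K ^ r := by rw [hK, ← pow_mul]) (by
      have h6 : 3 * (2 * B * (c + 1)) ≤ r * (2 ^ (ℓ + 3) * (c + 1)) := by
        calc 3 * (2 * B * (c + 1)) = (6 * B) * (c + 1) := by ring
          _ ≤ (6 * (2 ^ ℓ * (r + 1))) * (c + 1) := by gcongr
          _ = 2 ^ ℓ * (6 * (r + 1)) * (c + 1) := by ring
          _ ≤ 2 ^ ℓ * (8 * r) * (c + 1) :=
              Nat.mul_le_mul_right _ (Nat.mul_le_mul_left _ (by omega))
          _ = r * (2 ^ (ℓ + 3) * (c + 1)) := by rw [pow_add]; ring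
      have h7 := pow_add_three_le (by omega) h6
      have h8' : 4 ^ (2 ^ (ℓ + 3) * (c + 1)) = 2 ^ (2 ^ (ℓ + 5) * (ℓ + 6)) := by
        have h9 : 2 ^ (ℓ + 5) * (ℓ + 6) = 2 * (2 ^ (ℓ + 3) * (c + 1)) := by
          rw [hc1, pow_add 2 ℓ 5, pow_add 2 ℓ 3]; ring
        have h10 : (4 : ℕ) = 2 ^ 2 := by norm_num
        rw [h9, h10, ← pow_mul]
      calc 4 * (r * (r + 3) ^ (2 * B * (c + 1)))
          ≤ 4 * (r * (r ^ (2 * B * (c + 1)) * 4 ^ (2 ^ (ℓ + 3) * (c + 1)))) := by gcongr
        _ = 2 ^ (2 ^ (ℓ + 5) * (ℓ + 6)) * (4 * r) * r ^ (2 * B * (c + 1)) := by rw [h8']; ring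
        _ ≤ 2 ^ (2 ^ (ℓ + 5) * (ℓ + 6)) * (B + 1) * r ^ (2 * B * (c + 1)) :=
            Nat.mul_le_mul_right _ (Nat.mul_le_mul_left _ (by omega))
        _ = _ := by rw [← pow_mul, mul_comm (c + 1)])
  -- the gadget
  obtain ⟨φ, hφ⟩ := exists_onto m c (2 * ℓ + 13) hmg (by omega)
  have hcg : c + (2 * ℓ + 13) = 4 * ℓ + 24 := by omega
  rw [hcg] at hφ
  -- the variables
  have hBm : B * m ≤ n := by rw [hB]; exact Nat.div_mul_le_self n m
  set emb : Fin B × Fin m → Fin n := fun p => Fin.castLE hBm (finProdFinEquiv p) with hemb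
  have hinj : Function.Injective emb := by
    intro p q h
    exact finProdFinEquiv.injective (Fin.castLE_injective _ h)
  set P0 : (Fin r → ZMod 2) → Sys n B r c := fun rhs =>
    { blk := blkOf emb
      gad := fun i X => φ fun t => X (emb (i, t))
      loc := fun i X X' h => by
        congr 1
        funext t
        exact h _ ((blkOf_iff hinj).2 ⟨t, rfl⟩)
      edge := f
      rhs := rhs } with hP0
  have hE : ∀ rhs, (P0 rhs).Expanding r := fun rhs R hR χ hχ => hfE R hR χ hχ
  obtain ⟨j0, hj0⟩ := exists_root_row (P0 0) (hE 0) (by omega) (by omega)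
  refine ⟨r, P0 (Pi.single j0 1), by omega, hE _, ?_, ?_, ?_, ?_, ?_⟩
  · -- flexible
    intro i Z hZ hZc X z
    set S : Finset (Fin m) := univ.filter fun t => emb (i, t) ∈ Z with hS
    have hSc : Z.card ≤ S.card := by
      have : Z ⊆ S.image fun t => emb (i, t) := by
        intro v hv
        obtain ⟨t, ht⟩ := (blkOf_iff hinj).1 (hZ v hv)
        rw [mem_image]
        exact ⟨t, mem_filter.2 ⟨mem_univ _, by rw [ht]; exact hv⟩, ht⟩
      exact (card_le_card this).trans card_image_le
    obtain ⟨x', hx', hφx⟩ := hφ S (hZc.trans hSc) (fun t => X (emb (i, t))) z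
    set X' : Fin n → Bool := fun v => if h : ∃ t, emb (i, t) = v then x' h.choose else X v with hX'
    have hX't : ∀ t, X' (emb (i, t)) = x' t := by
      intro t
      have h1 : ∃ t', emb (i, t') = emb (i, t) := ⟨t, rfl⟩
      simp only [hX']
      rw [dif_pos h1]
      have := hinj h1.choose_spec
      rw [Prod.mk.injEq] at this
      rw [this.2]
    refine ⟨X', ?_, ?_⟩
    · intro v hv
      by_cases h : ∃ t, emb (i, t) = v
      · obtain ⟨t, rfl⟩ := h
        rw [hX't]
        apply hx'
        rw [hS, mem_filter, not_and]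
        exact fun _ => hv
      · simp only [hX']
        rw [dif_neg h]
    · show φ (fun t => X' (emb (i, t))) = z
      rw [← hφx]
      congr 1
      funext t
      exact hX't t
  · -- row size
    intro j
    have hsub : (P0 (Pi.single j0 1)).touch j ⊆
        (univ.filter fun i => ∃ l, f i l = j).biUnion fun i =>
          (univ : Finset (Fin m)).image fun t => emb (i, t) := by
      intro v hv
      rw [Sys.touch, mem_filter] at hv
      obtain ⟨-, i, hi, hl⟩ := hv
      obtain ⟨t, ht⟩ := (blkOf_iff hinj).1 hi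
      rw [mem_biUnion]
      exact ⟨i, mem_filter.2 ⟨mem_univ _, hl⟩, mem_image.2 ⟨t, mem_univ _, ht⟩⟩
    refine (card_le_card hsub).trans (card_biUnion_le.trans ?_)
    calc ∑ i ∈ univ.filter fun i => ∃ l, f i l = j,
        ((univ : Finset (Fin m)).image fun t => emb (i, t)).card
        ≤ ∑ i ∈ univ.filter fun i => ∃ l, f i l = j, m := by
          refine Finset.sum_le_sum fun i _ => ?_
          refine card_image_le.trans ?_
          rw [card_univ, Fintype.card_fin]
      _ = (univ.filter fun i => ∃ l, f i l = j).card * m := by rw [Finset.sum_const, smul_eq_mul]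
      _ ≤ (2 ^ (ℓ + 5) * (ℓ + 6)) * m := Nat.mul_le_mul_right _ (hfdeg j)
      _ = _ := mul_comm _ _
  · -- block size
    intro i
    have : (univ.filter fun v => (P0 (Pi.single j0 1)).blk v = some i) =
        (univ : Finset (Fin m)).image fun t => emb (i, t) := by
      ext v
      rw [mem_filter, mem_image]
      constructor
      · rintro ⟨-, h⟩
        obtain ⟨t, ht⟩ := (blkOf_iff hinj).1 h
        exact ⟨t, mem_univ _, ht⟩
      · rintro ⟨t, -, ht⟩
        exact ⟨mem_univ _, (blkOf_iff hinj).2 ⟨t, ht⟩⟩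
    rw [this, card_image_of_injective, card_univ, Fintype.card_fin]
    intro t t' h
    have := hinj h
    rw [Prod.mk.injEq] at this
    exact this.2
  · intro χ hχ hs
    have h1 : pair χ (P0 (Pi.single j0 1)).rhs = χ j0 := by
      show pair χ (Pi.single j0 1) = χ j0
      unfold pair
      rw [Finset.sum_eq_single j0]
      · simp
      · intro j _ hj
        rw [Pi.single_eq_of_ne hj, mul_zero]
      · intro h; exact absurd (mem_univ _) h
    rw [h1]
    exact hj0 χ hχ hs
  · show ∑ j, (Pi.single j0 1 : Fin r → ZMod 2) j ≠ 0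
    rw [Finset.sum_pi_single']
    simp

/-- large clauses: the number of variables outside a clause closing all but few blocks -/
lemma card_compl_vars {n B M c N : ℕ} {P : Sys n B M c} {π : Refutation P.cnf N} {d r m : ℕ}
    (hblk : ∀ i, (univ.filter fun v => P.blk v = some i).card = m) {u : Fin N}
    (hu : (Ropen P π d u).card ≤ r) (hBm : B * m ≤ n) :
    (vars (π.cl u))ᶜ.card ≤ (n - B * m) + r * m + B * d := by
  classical
  set A := (vars (π.cl u))ᶜ with hA
  set none' := univ.filter fun v => P.blk v = none with hnone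
  have hcover : A ⊆ none' ∪ (univ : Finset (Fin B)).biUnion fun i => free P π u i := by
    intro v hv
    rw [hA, mem_compl] at hv
    rw [mem_union]
    rcases hb : P.blk v with _ | i
    · exact Or.inl (mem_filter.2 ⟨mem_univ _, hb⟩)
    · right
      rw [mem_biUnion]
      exact ⟨i, mem_univ _, mem_filter.2 ⟨mem_univ _, hb, hv⟩⟩
  have hnonec : none'.card = n - B * m := by
    have h1 : none'.card + ∑ i : Fin B, (univ.filter fun v => P.blk v = some i).card = n := by
      have h2 : (univ : Finset (Fin n)).card = ∑ o : Option (Fin B),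
          (univ.filter fun v => P.blk v = o).card :=
        Finset.card_eq_sum_card_fiberwise (fun _ _ => mem_coe.2 (mem_univ _))
      rw [card_univ, Fintype.card_fin, Fintype.sum_option] at h2
      exact h2.symm
    rw [Finset.sum_congr rfl (fun i _ => hblk i), Finset.sum_const, smul_eq_mul, card_univ,
      Fintype.card_fin] at h1
    omega
  have hsum : ∑ i : Fin B, (free P π u i).card ≤ r * m + B * d := by
    calc ∑ i : Fin B, (free P π u i).card
        ≤ ∑ i : Fin B, ((if i ∈ Ropen P π d u then m else 0) + d) := by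
          refine Finset.sum_le_sum fun i _ => ?_
          split_ifs with hi
          · have : (free P π u i).card ≤ m := by
              rw [← hblk i]
              refine card_le_card fun v hv => ?_
              rw [free, mem_filter] at hv
              exact mem_filter.2 ⟨mem_univ _, hv.2.1⟩
            omega
          · rw [Ropen, mem_filter, not_and] at hi
            have := hi (mem_univ _)
            omega
      _ = (Ropen P π d u).card * m + B * d := by
          rw [Finset.sum_add_distrib, Finset.sum_ite_mem, univ_inter, Finset.sum_const,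
            Finset.sum_const, smul_eq_mul, smul_eq_mul, card_univ, Fintype.card_fin]
      _ ≤ r * m + B * d := by gcongr
  calc A.card ≤ none'.card + ((univ : Finset (Fin B)).biUnion fun i => free P π u i).card :=
        (card_le_card hcover).trans (card_union_le _ _)
    _ ≤ (n - B * m) + ∑ i : Fin B, (free P π u i).card := by
        rw [hnonec]
        exact Nat.add_le_add_left card_biUnion_le _
    _ ≤ _ := by omega

end Pool.Agent.H73.Blk
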