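import Pool.Agent.H73.Xor.Res

/-!
# Block systems: parity constraints on a hypergraph whose edges carry nonlinear gadgets
-/

open Finset Pool.Agent.H73.Xor

namespace Pool.Agent.H73.Blk

/-- A block system: `n` variables, some of them in one of `B` blocks; block `i` carries a gadget
`gad i` with `c` output bits, depending only on the variables of the block, and a list `edge i` of
`c + 1` rows. -/
structure Sys (n B M c : ℕ) where
  blk : Fin n → Option (Fin B)
  gad : Fin B → (Fin n → Bool) → Fin c → ZMod 2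
  loc : ∀ i X X', (∀ v, blk v = some i → X v = X' v) → gad i X = gad i X'
  edge : Fin B → Fin (c + 1) → Fin M
  rhs : Fin M → ZMod 2

variable {n B M c : ℕ} (P : Sys n B M c)

/-- the contribution of block `i` to row `j` -/
def Sys.con (i : Fin B) (X : Fin n → Bool) (j : Fin M) : ZMod 2 :=
  ∑ l : Fin c, P.gad i X l *
    ((if P.edge i 0 = j then 1 else 0) + (if P.edge i l.succ = j then 1 else 0))

/-- the residual of row `j`: zero when the row is satisfied -/
def Sys.res (X : Fin n → Bool) (j : Fin M) : ZMod 2 := P.rhs j + ∑ i, P.con i X j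

/-- pairing of functionals and residuals -/
def pair (χ v : Fin M → ZMod 2) : ZMod 2 := ∑ j, χ j * v j

lemma pair_add (χ χ' v : Fin M → ZMod 2) : pair (χ + χ') v = pair χ v + pair χ' v := by
  simp [pair, add_mul, Finset.sum_add_distrib]

lemma pair_add_right (χ v v' : Fin M → ZMod 2) : pair χ (v + v') = pair χ v + pair χ v' := by
  simp [pair, mul_add, Finset.sum_add_distrib]

lemma pair_con (χ : Fin M → ZMod 2) (i : Fin B) (X : Fin n → Bool) :
    pair χ (P.con i X) = ∑ l : Fin c, P.gad i X l * (χ (P.edge i 0) + χ (P.edge i l.succ)) := by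
  unfold pair Sys.con
  simp only [Finset.mul_sum]
  rw [Finset.sum_comm]
  refine Finset.sum_congr rfl fun l _ => ?_
  have : ∀ j, χ j * (P.gad i X l *
      ((if P.edge i 0 = j then 1 else 0) + (if P.edge i l.succ = j then 1 else 0))) =
      P.gad i X l * ((if P.edge i 0 = j then χ j else 0) +
        (if P.edge i l.succ = j then χ j else 0)) := by
    intro j
    split_ifs <;> ring
  rw [Finset.sum_congr rfl (fun j _ => this j), ← Finset.mul_sum, Finset.sum_add_distrib]
  simp

/-- the rows touched by a variable -/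
def Sys.touch (j : Fin M) : Finset (Fin n) :=
  univ.filter fun v => ∃ i, P.blk v = some i ∧ ∃ l, P.edge i l = j

lemma con_eq_zero {i : Fin B} {j : Fin M} (h : ∀ l, P.edge i l ≠ j) (X : Fin n → Bool) :
    P.con i X j = 0 := by
  unfold Sys.con
  refine Finset.sum_eq_zero fun l _ => ?_
  rw [if_neg (h 0), if_neg (h l.succ)]
  simp

lemma res_congr {X X' : Fin n → Bool} {j : Fin M} (h : ∀ v ∈ P.touch j, X v = X' v) :
    P.res X j = P.res X' j := by
  unfold Sys.res
  congr 1
  refine Finset.sum_congr rfl fun i _ => ?_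
  by_cases hi : ∃ l, P.edge i l = j
  · have : P.gad i X = P.gad i X' := by
      apply P.loc
      intro v hv
      apply h
      rw [Sys.touch, mem_filter]
      exact ⟨mem_univ _, i, hv, hi⟩
    unfold Sys.con
    rw [this]
  · push Not at hi
    rw [con_eq_zero P hi, con_eq_zero P hi]

/-- the clause forbidding the values of `X` on row `j` -/
def Sys.rowCl (j : Fin M) (X : Fin n → Bool) : Clause n := (P.touch j).image fun v => (v, !X v)

/-- the CNF formula of the system -/
def Sys.cnf : CNF n :=
  (univ.filter fun p : Fin M × (Fin n → Bool) => P.res p.2 p.1 ≠ 0).image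
    fun p => P.rowCl p.1 p.2

lemma cnf_kcnf {k : ℕ} (h : ∀ j, (P.touch j).card ≤ k) : IsKCNF k P.cnf := by
  intro C hC
  rw [Sys.cnf, mem_image] at hC
  obtain ⟨⟨j, y⟩, -, rfl⟩ := hC
  exact card_image_le.trans (h j)

lemma fal_rowCl {j : Fin M} {X Y : Fin n → Bool} :
    Fal X (P.rowCl j Y) ↔ ∀ v ∈ P.touch j, X v = Y v := by
  unfold Fal Sys.rowCl
  constructor
  · intro h v hv
    have := h (v, !Y v) (mem_image.2 ⟨v, hv, rfl⟩)
    simpa using this
  · intro h l hl
    rw [mem_image] at hl
    obtain ⟨v, hv, rfl⟩ := hl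
    simpa using h v hv

lemma sum_res (X : Fin n → Bool) : ∑ j, P.res X j = ∑ j, P.rhs j := by
  have h1 : ∑ j, P.res X j = ∑ j, P.rhs j + ∑ i, ∑ j, P.con i X j := by
    unfold Sys.res
    rw [Finset.sum_add_distrib]
    congr 1
    exact Finset.sum_comm
  have h2 : ∀ i, ∑ j, P.con i X j = 0 := by
    intro i
    have := pair_con P (fun _ => 1) i X
    unfold pair at this
    simp only [one_mul] at this
    rw [this]
    refine Finset.sum_eq_zero fun l _ => ?_
    rw [CharTwo.add_self_eq_zero, mul_zero]
  rw [h1, Finset.sum_eq_zero (fun i _ => h2 i), add_zero]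

lemma cnf_unsat (h : ∑ j, P.rhs j ≠ 0) : Unsat P.cnf := by
  intro X
  have : ∃ j, P.res X j ≠ 0 := by
    by_contra hcon
    push Not at hcon
    apply h
    rw [← sum_res P X]
    exact Finset.sum_eq_zero fun j _ => hcon j
  obtain ⟨j, hj⟩ := this
  refine ⟨P.rowCl j X, ?_, ?_⟩
  · rw [Sys.cnf, mem_image]
    exact ⟨(j, X), mem_filter.2 ⟨mem_univ _, hj⟩, rfl⟩
  · rw [← fal_iff, fal_rowCl]
    exact fun _ _ => rfl

lemma cnf_row {C : Clause n} (hC : C ∈ P.cnf) : ∃ j : Fin M, P.touch j ⊆ vars C ∧
    ∀ X, Fal X C → P.res X j ≠ 0 := by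
  rw [Sys.cnf, mem_image] at hC
  obtain ⟨⟨j, Y⟩, hY, rfl⟩ := hC
  rw [mem_filter] at hY
  refine ⟨j, ?_, ?_⟩
  · intro v hv
    rw [vars, mem_image]
    exact ⟨(v, !Y v), mem_image.2 ⟨v, hv, rfl⟩, rfl⟩
  · intro X hX
    rw [fal_rowCl] at hX
    rw [res_congr P hX]
    exact hY.2

/-- a functional constant on the edges of a set of blocks -/
def Sys.Closed (R : Finset (Fin B)) (χ : Fin M → ZMod 2) : Prop :=
  ∀ i ∈ R, ∀ l, χ (P.edge i l) = χ (P.edge i 0)

/-- the weight of a functional -/
def wt (χ : Fin M → ZMod 2) : ℕ := (univ.filter fun j => χ j ≠ 0).card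

/-- small functionals -/
def Small (χ : Fin M → ZMod 2) : Prop := 3 * wt χ < M

lemma wt_add_le (χ χ' : Fin M → ZMod 2) : wt (χ + χ') ≤ wt χ + wt χ' := by
  unfold wt
  refine le_trans (card_le_card ?_) (card_union_le _ _)
  intro j hj
  rw [mem_union]
  simp only [mem_filter, mem_univ, true_and, Pi.add_apply] at hj ⊢
  by_contra hcon
  push Not at hcon
  apply hj
  rw [hcon.1, hcon.2, add_zero]

/-- expansion: functionals constant on at least `r` edges are small or co-small -/
def Sys.Expanding (r : ℕ) : Prop := ∀ (R : Finset (Fin B)), r ≤ R.card → ∀ χ : Fin M → ZMod 2,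
  P.Closed R χ → 3 * wt χ < M ∨ 2 * M < 3 * wt χ

/-- surjectivity of the gadgets on all subcubes with `d` free variables -/
def Sys.Flexible (d : ℕ) : Prop := ∀ (i : Fin B) (Z : Finset (Fin n)),
  (∀ v ∈ Z, P.blk v = some i) → d ≤ Z.card → ∀ (X : Fin n → Bool) (z : Fin c → ZMod 2),
    ∃ X' : Fin n → Bool, (∀ v, v ∉ Z → X' v = X v) ∧ P.gad i X' = z

/-- the submodule of small functionals constant on the edges of `R` -/
def smallClosed {r : ℕ} (hE : P.Expanding r) (R : Finset (Fin B)) (hR : r ≤ R.card)
    (hM : 0 < M) : Submodule (ZMod 2) (Fin M → ZMod 2) where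
  carrier := {χ | P.Closed R χ ∧ Small χ}
  zero_mem' := by
    refine ⟨fun i _ l => rfl, ?_⟩
    unfold Small wt
    simpa using hM
  add_mem' := by
    rintro χ χ' ⟨h1, h2⟩ ⟨h1', h2'⟩
    have hc : P.Closed R (χ + χ') := by
      intro i hi l
      rw [Pi.add_apply, Pi.add_apply, h1 i hi l, h1' i hi l]
    refine ⟨hc, ?_⟩
    rcases hE R hR _ hc with h | h
    · exact h
    · exfalso
      have := wt_add_le χ χ'
      unfold Small at h2 h2'
      omega
  smul_mem' := by
    rintro a χ ⟨h1, h2⟩
    rcases z2_cases a with rfl | rfl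
    · rw [zero_smul]
      refine ⟨fun i _ l => rfl, ?_⟩
      unfold Small wt
      simpa using hM
    · rw [one_smul]
      exact ⟨h1, h2⟩

/-- the linear algebra step: the last open block can repair all parities -/
lemma repair {r : ℕ} (hE : P.Expanding r) (R : Finset (Fin B)) (hR : r ≤ R.card) (hM : 0 < M)
    (i : Fin B) (hiR : i ∉ R) (X : Fin n → Bool)
    (h : ∀ χ, P.Closed (insert i R) χ → Small χ → pair χ (P.res X) = 0) :
    ∃ z : Fin c → ZMod 2, ∀ X' : Fin n → Bool, (∀ v, P.blk v ≠ some i → X' v = X v) →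
      P.gad i X' = z → ∀ χ, P.Closed R χ → Small χ → pair χ (P.res X') = 0 := by
  classical
  set L := smallClosed P hE R hR hM with hL
  set rest : Fin M → ZMod 2 := fun j => P.rhs j + ∑ i' ∈ univ.erase i, P.con i' X j with hrest
  have hres : ∀ X' : Fin n → Bool, (∀ v, P.blk v ≠ some i → X' v = X v) →
      P.res X' = rest + P.con i X' := by
    intro X' hX'
    funext j
    unfold Sys.res
    rw [Pi.add_apply, hrest]
    simp only
    rw [← Finset.sum_erase_add _ _ (mem_univ i), ← add_assoc]
    congr 2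
    refine Finset.sum_congr rfl fun i' hi' => ?_
    unfold Sys.con
    rw [P.loc i' X' X]
    intro v hv
    apply hX'
    rw [hv]
    intro heq
    exact (ne_of_mem_erase hi') (Option.some.inj heq)
  set lam : L →ₗ[ZMod 2] ZMod 2 :=
    { toFun := fun χ => pair χ.1 rest
      map_add' := fun χ χ' => pair_add _ _ _
      map_smul' := fun a χ => by
        simp only [pair, Submodule.coe_smul, Pi.smul_apply, smul_eq_mul, RingHom.id_apply,
          Finset.mul_sum, mul_assoc] } with hlam
  set g : L →ₗ[ZMod 2] (Fin c → ZMod 2) :=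
    { toFun := fun χ l => χ.1 (P.edge i 0) + χ.1 (P.edge i l.succ)
      map_add' := fun χ χ' => by
        funext l
        simp only [Submodule.coe_add, Pi.add_apply]
        ring
      map_smul' := fun a χ => by
        funext l
        simp only [Submodule.coe_smul, Pi.smul_apply, smul_eq_mul, RingHom.id_apply]
        ring } with hg
  have hker : lam ∈ (LinearMap.ker g).dualAnnihilator := by
    rw [Submodule.mem_dualAnnihilator]
    rintro ⟨χ, hχc, hχs⟩ hker
    rw [LinearMap.mem_ker] at hker
    have hconst : ∀ l, χ (P.edge i l) = χ (P.edge i 0) := by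
      intro l
      induction l using Fin.cases with
      | zero => rfl
      | succ l =>
        have := congrFun hker l
        simp only [hg, LinearMap.coe_mk, AddHom.coe_mk, Pi.zero_apply] at this
        have h2 : χ (P.edge i 0) = χ (P.edge i l.succ) := by
          have h3 := this
          have : χ (P.edge i 0) + χ (P.edge i l.succ) + χ (P.edge i l.succ) =
              χ (P.edge i l.succ) := by rw [h3, zero_add]
          rwa [add_assoc, CharTwo.add_self_eq_zero, add_zero] at this
        exact h2.symm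
    have hcl : P.Closed (insert i R) χ := by
      intro i' hi' l
      rw [mem_insert] at hi'
      rcases hi' with rfl | hi'
      · exact hconst l
      · exact hχc i' hi' l
    have h1 := h χ hcl hχs
    rw [hres X (fun _ _ => rfl), pair_add_right, pair_con] at h1
    have h2 : ∑ l : Fin c, P.gad i X l * (χ (P.edge i 0) + χ (P.edge i l.succ)) = 0 := by
      refine Finset.sum_eq_zero fun l _ => ?_
      rw [hconst l.succ, CharTwo.add_self_eq_zero, mul_zero]
    rw [h2, add_zero] at h1
    exact h1
  rw [← LinearMap.range_dualMap_eq_dualAnnihilator_ker, LinearMap.mem_range] at hker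
  obtain ⟨μ, hμ⟩ := hker
  refine ⟨fun l => μ (Pi.single l 1), fun X' hX' hgad χ hχc hχs => ?_⟩
  have h1 : μ (g ⟨χ, hχc, hχs⟩) = pair χ rest := by
    have := LinearMap.congr_fun hμ ⟨χ, hχc, hχs⟩
    simpa [hlam] using this
  have h2 : μ (g ⟨χ, hχc, hχs⟩) = ∑ l : Fin c, (g ⟨χ, hχc, hχs⟩) l * μ (Pi.single l 1) := by
    conv_lhs => rw [pi_eq_sum_univ' (g ⟨χ, hχc, hχs⟩)]
    rw [map_sum]
    refine Finset.sum_congr rfl fun l _ => ?_
    rw [map_smul, smul_eq_mul]
  rw [hres X' hX', pair_add_right, pair_con, hgad, ← h1, h2]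
  have h3 : ∑ l : Fin c, (g ⟨χ, hχc, hχs⟩) l * μ (Pi.single l 1) =
      ∑ l : Fin c, μ (Pi.single l 1) * (χ (P.edge i 0) + χ (P.edge i l.succ)) := by
    refine Finset.sum_congr rfl fun l _ => ?_
    rw [mul_comm]
    rfl
  rw [h3]
  exact CharTwo.add_self_eq_zero _

end Pool.Agent.H73.Blk
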