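import Pool.Agent.H73.Blk.Sys

/-!
# The adversary's walk down a resolution refutation of a block system
-/

open Finset Pool.Agent.H73.Xor

namespace Pool.Agent.H73.Blk

section

variable {n B M c N : ℕ} (P : Sys n B M c) (π : Refutation P.cnf N)

/-- the variables of block `i` not occurring in the clause `u` -/
def free (u : Fin N) (i : Fin B) : Finset (Fin n) :=
  univ.filter fun v => P.blk v = some i ∧ v ∉ vars (π.cl u)

/-- the open blocks at the clause `u` -/
def Ropen (d : ℕ) (u : Fin N) : Finset (Fin B) := univ.filter fun i => d ≤ (free P π u i).card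

/-- the state of the walk -/
structure St (d : ℕ) (Xs : Fin n → Bool) (u : Fin N) (l : List (Fin n)) (X : Fin n → Bool)
    (H : Finset (Fin B)) (G : Finset (Fin n)) : Prop where
  path : π.Path π.root u l
  fal : Fal X (π.cl u)
  par : ∀ χ, P.Closed (Ropen P π d u) χ → Small χ → pair χ (P.res X) = 0
  sub : vars (π.cl u) ⊆ l.toFinset
  agree : ∀ v, (∀ i ∈ H, P.blk v ≠ some i) → X v = Xs v
  few : ∀ i ∈ H, (univ.filter fun v => P.blk v = some i ∧ v ∉ G).card ≤ d
  good : ∀ v ∈ vars (π.cl u), v ∈ G → l.count v < 2 → X v = Xs v
  seen : ∀ v ∈ l, (∀ i ∈ H, P.blk v ≠ some i) → v ∈ G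
  gl : ∀ v ∈ G, v ∈ l

variable {P π}

lemma closed_mono {R R' : Finset (Fin B)} (h : R ⊆ R') {χ : Fin M → ZMod 2}
    (hχ : P.Closed R' χ) : P.Closed R χ := fun i hi l => hχ i (h hi) l

lemma leaf_contra {d : ℕ} (hd : 1 ≤ d) (hM : 3 < M) {Xs : Fin n → Bool} {u : Fin N}
    {l : List (Fin n)} {X : Fin n → Bool} {H : Finset (Fin B)} {G : Finset (Fin n)}
    (h : St P π d Xs u l X H G) (hu : π.just u = none) : False := by
  classical
  obtain ⟨C, hC, hCu⟩ := π.leaf u hu
  obtain ⟨j, hj, hres⟩ := cnf_row P hC
  apply hres X fun l hl => h.fal l (hCu hl)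
  have hvars : P.touch j ⊆ vars (π.cl u) := hj.trans (image_subset_image hCu)
  have h1 := h.par (Pi.single j 1) ?_ ?_
  · unfold pair at h1
    rw [Finset.sum_eq_single j] at h1
    · simpa using h1
    · intro j' _ hj'
      rw [Pi.single_eq_of_ne hj', zero_mul]
    · intro hj'
      exact absurd (mem_univ _) hj'
  · intro i hi l
    rw [Ropen, mem_filter] at hi
    have hne : ∀ l, P.edge i l ≠ j := by
      intro l hl
      have : free P π u i = ∅ := by
        rw [free, Finset.filter_eq_empty_iff]
        rintro v - ⟨hv, hvu⟩
        apply hvu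
        apply hvars
        rw [Sys.touch, mem_filter]
        exact ⟨mem_univ _, i, hv, l, hl⟩
      rw [this] at hi
      simp at hi
      omega
    rw [Pi.single_eq_of_ne (hne l), Pi.single_eq_of_ne (hne 0)]
  · unfold Small wt
    have : (univ.filter fun j' : Fin M => (Pi.single j 1 : Fin M → ZMod 2) j' ≠ 0) = {j} := by
      ext j'
      simp only [mem_filter, mem_univ, true_and, mem_singleton]
      constructor
      · intro hne
        by_contra hc
        exact hne (Pi.single_eq_of_ne hc _)
      · rintro rfl
        simp
    rw [this]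
    simpa using hM

lemma vars_child {u : Fin N} {v0 : Fin n} {p q : Fin N} (hu : π.just u = some (v0, p, q))
    (e : Bool) : vars (π.cl (if e = true then q else p)) ⊆ insert v0 (vars (π.cl u)) := by
  refine vars_next π hu ?_
  cases e <;> simp

lemma path_child {u : Fin N} {v0 : Fin n} {p q : Fin N} (hu : π.just u = some (v0, p, q))
    {l : List (Fin n)} (hl : π.Path π.root u l) (e : Bool) :
    π.Path π.root (if e = true then q else p) (l ++ [v0]) := by
  refine hl.append (.cons hu ?_ (.nil _))
  cases e <;> simp

lemma step {d r : ℕ} (hE : P.Expanding r) (hF : P.Flexible d) (hM : 3 < M)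
    {Xs : Fin n → Bool} {u : Fin N}
    {l : List (Fin n)} {X : Fin n → Bool} {H : Finset (Fin B)} {G : Finset (Fin n)}
    (h : St P π d Xs u l X H G) (hr : r < (Ropen P π d u).card)
    {v0 : Fin n} {p q : Fin N} (hu : π.just u = some (v0, p, q)) :
    ∃ X' H' G', St P π d Xs (if X' v0 = true then q else p) (l ++ [v0]) X' H' G' := by
  classical
  by_cases hA : ∀ i ∈ Ropen P π d u, P.blk v0 = some i →
      v0 ∈ vars (π.cl u) ∨ d + 1 ≤ (free P π u i).card
  · -- no modification
    refine ⟨X, H, if ∀ i ∈ H, P.blk v0 ≠ some i then insert v0 G else G, ?_⟩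
    set G' := if ∀ i ∈ H, P.blk v0 ≠ some i then insert v0 G else G with hG'
    set e := if X v0 = true then q else p with he
    have hGG' : G ⊆ G' := by
      rw [hG']; split_ifs
      · exact subset_insert _ _
      · exact subset_rfl
    have hG'G : ∀ v ∈ G', v ≠ v0 → v ∈ G := by
      intro v hv hne
      rw [hG'] at hv
      split_ifs at hv
      · exact mem_of_mem_insert_of_ne hv hne
      · exact hv
    have hvc := vars_child hu (X v0)
    have hRo : Ropen P π d u ⊆ Ropen P π d e := by
      intro i hi
      have hi' := hi
      rw [Ropen, mem_filter] at hi ⊢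
      refine ⟨mem_univ _, ?_⟩
      by_cases hb : P.blk v0 = some i
      · rcases hA i hi' hb with h1 | h1
        · refine hi.2.trans (card_le_card ?_)
          intro v hv
          rw [free, mem_filter] at hv ⊢
          refine ⟨mem_univ _, hv.2.1, fun hc => hv.2.2 ?_⟩
          have := hvc hc
          rw [mem_insert] at this
          rcases this with rfl | h2
          · exact h1
          · exact h2
        · have h2 : (free P π u i).erase v0 ⊆ free P π e i := by
            intro v hv
            rw [mem_erase, free, mem_filter] at hv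
            rw [free, mem_filter]
            refine ⟨mem_univ _, hv.2.2.1, fun hc => hv.2.2.2 ?_⟩
            exact mem_of_mem_insert_of_ne (hvc hc) hv.1
          have h3 := card_le_card h2
          have h4 := Finset.pred_card_le_card_erase (s := free P π u i) (a := v0)
          omega
      · refine hi.2.trans (card_le_card ?_)
        intro v hv
        rw [free, mem_filter] at hv ⊢
        refine ⟨mem_univ _, hv.2.1, fun hc => hv.2.2 ?_⟩
        refine mem_of_mem_insert_of_ne (hvc hc) ?_
        rintro rfl
        exact hb hv.2.1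
    refine ⟨path_child hu h.path _, fal_next π hu h.fal, ?_, ?_, h.agree, ?_, ?_, ?_, ?_⟩
    · exact fun χ hχ hs => h.par χ (closed_mono hRo hχ) hs
    · intro v hv
      have := hvc hv
      rw [mem_insert] at this
      rw [List.mem_toFinset, List.mem_append, List.mem_singleton]
      rcases this with rfl | h2
      · exact Or.inr rfl
      · exact Or.inl (List.mem_toFinset.1 (h.sub h2))
    · intro i hi
      refine le_trans (card_le_card ?_) (h.few i hi)
      intro v hv
      rw [mem_filter] at hv ⊢
      exact ⟨hv.1, hv.2.1, fun hc => hv.2.2 (hGG' hc)⟩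
    · intro v hv hvG hcount
      rw [List.count_append] at hcount
      by_cases hv0 : v = v0
      · subst hv0
        have h1 : l.count v = 0 := by
          have : [v].count v = 1 := by simp
          omega
        have h2 : v ∉ l := List.count_eq_zero.1 h1
        have h3 : v ∉ G := fun hc => h2 (h.gl v hc)
        rw [hG'] at hvG
        split_ifs at hvG with h4
        · exact h.agree v h4
        · exact absurd hvG h3
      · refine h.good v (mem_of_mem_insert_of_ne (hvc hv) hv0) (hG'G v hvG hv0) ?_
        omega
    · intro v hv hH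
      rw [List.mem_append, List.mem_singleton] at hv
      rcases hv with hv | rfl
      · exact hGG' (h.seen v hv hH)
      · rw [hG', if_pos hH]
        exact mem_insert_self _ _
    · intro v hv
      rw [List.mem_append, List.mem_singleton]
      by_cases hv0 : v = v0
      · exact Or.inr hv0
      · exact Or.inl (h.gl v (hG'G v hv hv0))
  · -- the block of `v0` gets closed
    push Not at hA
    obtain ⟨i, hi, hb, hv0, hcard⟩ := hA
    have hiR : i ∉ (Ropen P π d u).erase i := notMem_erase _ _
    have hins : insert i ((Ropen P π d u).erase i) = Ropen P π d u := insert_erase hi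
    have hR' : r ≤ ((Ropen P π d u).erase i).card := by
      rw [card_erase_of_mem hi]; omega
    obtain ⟨z, hz⟩ := repair P hE _ hR' (by omega) i hiR X (by
      rw [hins]; exact h.par)
    have hdcard : d ≤ (free P π u i).card := by
      rw [Ropen, mem_filter] at hi
      exact hi.2
    have hZ : ∀ v ∈ free P π u i, P.blk v = some i := by
      intro v hv
      rw [free, mem_filter] at hv
      exact hv.2.1
    obtain ⟨X', hX', hgad⟩ := hF i (free P π u i) hZ hdcard X z
    have hXu : ∀ v ∈ vars (π.cl u), X' v = X v := by
      intro v hv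
      apply hX'
      intro hc
      rw [free, mem_filter] at hc
      exact hc.2.2 hv
    have hpar := hz X' (fun v hv => hX' v fun hc => hv (hZ v hc)) hgad
    have hfal' : Fal X' (π.cl u) := by
      intro l' hl'
      rw [hXu l'.1 (mem_image.2 ⟨l', hl', rfl⟩)]
      exact h.fal l' hl'
    refine ⟨X', insert i H, G, ?_⟩
    set e := if X' v0 = true then q else p with he
    have hvc := vars_child hu (X' v0)
    have hRo : (Ropen P π d u).erase i ⊆ Ropen P π d e := by
      intro i' hi'
      rw [mem_erase, Ropen, mem_filter] at hi'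
      rw [Ropen, mem_filter]
      refine ⟨mem_univ _, hi'.2.2.trans (card_le_card ?_)⟩
      intro v hv
      rw [free, mem_filter] at hv ⊢
      refine ⟨mem_univ _, hv.2.1, fun hc => hv.2.2 ?_⟩
      refine mem_of_mem_insert_of_ne (hvc hc) ?_
      rintro rfl
      rw [hb] at hv
      exact hi'.1 (Option.some.inj hv.2.1).symm
    refine ⟨path_child hu h.path _, fal_next π hu hfal', ?_, ?_, ?_, ?_, ?_, ?_, ?_⟩
    · exact fun χ hχ hs => hpar χ (closed_mono hRo hχ) hs
    · intro v hv
      have := hvc hv
      rw [mem_insert] at this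
      rw [List.mem_toFinset, List.mem_append, List.mem_singleton]
      rcases this with rfl | h2
      · exact Or.inr rfl
      · exact Or.inl (List.mem_toFinset.1 (h.sub h2))
    · intro v hv
      rw [hX' v fun hc => hv i (mem_insert_self _ _) (hZ v hc)]
      exact h.agree v fun i' hi' => hv i' (mem_insert_of_mem hi')
    · intro i' hi'
      by_cases hiH : i' ∈ H
      · exact h.few i' hiH
      · have hii : i' = i := by
          rw [mem_insert] at hi'
          exact hi'.resolve_right hiH
        subst hii
        have : (univ.filter fun v => P.blk v = some i' ∧ v ∉ G) ⊆ free P π u i' := by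
          intro v hv
          rw [mem_filter] at hv
          rw [free, mem_filter]
          refine ⟨mem_univ _, hv.2.1, fun hc => hv.2.2 ?_⟩
          apply h.seen v (List.mem_toFinset.1 (h.sub hc))
          intro i'' hi'' hbb
          rw [hv.2.1] at hbb
          rw [Option.some.inj hbb] at hiH
          exact hiH hi''
        refine (card_le_card this).trans ?_
        omega
    · intro v hv hvG hcount
      rw [List.count_append] at hcount
      have hne : v ≠ v0 := by
        rintro rfl
        have h1 : 0 < l.count v := List.count_pos_iff.2 (h.gl v hvG)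
        have : [v].count v = 1 := by simp
        omega
      have hvu := mem_of_mem_insert_of_ne (hvc hv) hne
      rw [hXu v hvu]
      refine h.good v hvu hvG ?_
      omega
    · intro v hv hH
      rw [List.mem_append, List.mem_singleton] at hv
      rcases hv with hv | rfl
      · exact h.seen v hv fun i' hi' => hH i' (mem_insert_of_mem hi')
      · exact absurd hb (hH i (mem_insert_self _ _))
    · intro v hv
      rw [List.mem_append]
      exact Or.inl (h.gl v hv)

lemma walk_aux {d r : ℕ} (hE : P.Expanding r) (hF : P.Flexible d) (hd : 1 ≤ d) (hM : 3 < M)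
    {Xs : Fin n → Bool} : ∀ (k : ℕ) (u : Fin N)
    (l : List (Fin n)) (X : Fin n → Bool) (H : Finset (Fin B)) (G : Finset (Fin n)),
    u.1 ≤ k → St P π d Xs u l X H G →
    ∃ (u' : Fin N) (l' : List (Fin n)) (X' : Fin n → Bool), π.Path π.root u' l' ∧
      (Ropen P π d u').card ≤ r ∧ Fal X' (π.cl u') ∧
      (univ.filter fun v => v ∈ vars (π.cl u') ∧ X' v ≠ Xs v).card ≤
        (univ.filter fun v => 2 ≤ l'.count v).card + d * B := by
  classical
  intro k
  induction k with
  | zero =>
    intro u l X H G hk h
    by_cases hr : (Ropen P π d u).card ≤ r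
    · exact ⟨u, l, X, h.path, hr, h.fal, final h⟩
    · rcases hu : π.just u with _ | ⟨v0, p, q⟩
      · exact (leaf_contra hd hM h hu).elim
      · obtain ⟨hp, -, -, -⟩ := π.step u v0 p q hu
        have : p.1 < u.1 := hp
        omega
  | succ k ih =>
    intro u l X H G hk h
    by_cases hr : (Ropen P π d u).card ≤ r
    · exact ⟨u, l, X, h.path, hr, h.fal, final h⟩
    · rcases hu : π.just u with _ | ⟨v0, p, q⟩
      · exact (leaf_contra hd hM h hu).elim
      · obtain ⟨hp, hq, -, -⟩ := π.step u v0 p q hu
        have hp' : p.1 < u.1 := hp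
        have hq' : q.1 < u.1 := hq
        obtain ⟨X', H', G', h'⟩ := step hE hF hM h (not_le.1 hr) hu
        refine ih _ _ X' H' G' ?_ h'
        split_ifs <;> omega
where
  final {d : ℕ} {Xs : Fin n → Bool} {u : Fin N} {l : List (Fin n)} {X : Fin n → Bool}
      {H : Finset (Fin B)} {G : Finset (Fin n)} (h : St P π d Xs u l X H G) :
      (univ.filter fun v => v ∈ vars (π.cl u) ∧ X v ≠ Xs v).card ≤
        (univ.filter fun v => 2 ≤ l.count v).card + d * B := by
    classical
    have hsub : (univ.filter fun v => v ∈ vars (π.cl u) ∧ X v ≠ Xs v) ⊆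
        (univ.filter fun v => 2 ≤ l.count v) ∪
          H.biUnion fun i => univ.filter fun v => P.blk v = some i ∧ v ∉ G := by
      intro v hv
      rw [mem_filter] at hv
      obtain ⟨-, hvu, hne⟩ := hv
      rw [mem_union]
      by_cases hc : 2 ≤ l.count v
      · exact Or.inl (mem_filter.2 ⟨mem_univ _, hc⟩)
      · right
        have hvG : v ∉ G := fun hG => hne (h.good v hvu hG (by omega))
        have : ¬ ∀ i ∈ H, P.blk v ≠ some i := fun hH => hne (h.agree v hH)
        push Not at this
        obtain ⟨i, hi, hb⟩ := this
        exact mem_biUnion.2 ⟨i, hi, mem_filter.2 ⟨mem_univ _, hb, hvG⟩⟩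
    refine (card_le_card hsub).trans ((card_union_le _ _).trans (Nat.add_le_add_left ?_ _))
    refine card_biUnion_le.trans ?_
    calc ∑ i ∈ H, (univ.filter fun v => P.blk v = some i ∧ v ∉ G).card ≤ ∑ i ∈ H, d :=
          Finset.sum_le_sum fun i hi => h.few i hi
      _ = H.card * d := by rw [Finset.sum_const, smul_eq_mul]
      _ ≤ B * d := by
          refine Nat.mul_le_mul_right _ ?_
          have := card_le_univ H
          rwa [Fintype.card_fin] at this
      _ = d * B := mul_comm _ _

/-- the adversary with hidden assignment `Xs` reaches a clause closing all but `r` blocks -/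
theorem walk_main {d r : ℕ} (hE : P.Expanding r) (hF : P.Flexible d) (hd : 1 ≤ d) (hM : 3 < M)
    (hblk : ∀ i, d ≤ (univ.filter fun v => P.blk v = some i).card)
    (hroot : ∀ χ, P.Closed univ χ → Small χ → pair χ P.rhs = 0) (Xs : Fin n → Bool) :
    ∃ (u' : Fin N) (l' : List (Fin n)) (X' : Fin n → Bool), π.Path π.root u' l' ∧
      (Ropen P π d u').card ≤ r ∧ Fal X' (π.cl u') ∧
      (univ.filter fun v => v ∈ vars (π.cl u') ∧ X' v ≠ Xs v).card ≤
        (univ.filter fun v => 2 ≤ l'.count v).card + d * B := by
  classical
  have hvars : vars (π.cl π.root) = ∅ := by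
    rw [π.root_empty]; rfl
  have hRo : Ropen P π d π.root = univ := by
    rw [Ropen, Finset.filter_eq_self]
    intro i _
    have : free P π π.root i = univ.filter fun v => P.blk v = some i := by
      unfold free
      rw [hvars]
      simp
    rw [this]
    exact hblk i
  refine walk_aux hE hF hd hM (Xs := Xs) N π.root [] Xs ∅ ∅ π.root.2.le ⟨.nil _, ?_, ?_, ?_, ?_,
    ?_, ?_, ?_, ?_⟩
  · intro l hl
    rw [π.root_empty] at hl
    simp at hl
  · intro χ hχ hs
    rw [hRo] at hχ
    have h1 : P.res Xs = P.rhs + ∑ i, P.con i Xs := by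
      funext j
      simp [Sys.res]
    rw [h1, pair_add_right, hroot χ hχ hs, zero_add]
    have h2 : pair χ (∑ i, P.con i Xs) = ∑ i, pair χ (P.con i Xs) := by
      unfold pair
      simp only [Finset.sum_apply, Finset.mul_sum]
      exact Finset.sum_comm
    rw [h2]
    refine Finset.sum_eq_zero fun i _ => ?_
    rw [pair_con]
    refine Finset.sum_eq_zero fun l _ => ?_
    rw [hχ i (mem_univ _) l.succ, CharTwo.add_self_eq_zero, mul_zero]
  · rw [hvars]; simp
  · intro v _; rfl
  · intro i hi; simp at hi
  · intro v hv; rw [hvars] at hv; simp at hv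
  · intro v hv; simp at hv
  · intro v hv; simp at hv

end

end Pool.Agent.H73.Blk
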